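import Pool.Agent.Lib.MP_d0f9e0_co.AV12.Cor
import Pool.Agent.Lib.MP_d0f9e0_co.GH.Beta
import Pool.Agent.Lib.MP_d0f9e0_co.FN.FidNG

/-!
# The final form in terms of the base map `Bm` and `bet`
-/

set_option autoImplicit false
set_option linter.unusedSectionVars false

open scoped BigOperators

namespace Pool.Agent.Lib.MP_d0f9e0_co.AV12

open Pool.MP_d0f9e0_co Pool.MP_d0f9e0_co.SH Pool.Agent.Lib.MP_d0f9e0_co.FN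

variable {d : ℕ} [NeZero d]

theorem A0_eq_Bm (d : ℕ) : A0 d = GH.Bm ((d : ℤ) - 1) := by
  refine AddEquiv.ext fun p => ?_
  rw [A0_apply, GH.Bm_apply]
  push_cast
  rfl

theorem A3_eq_pw (d : ℕ) : A3 d = pw (GH.Bm ((d : ℤ) - 1)) 3 := by
  unfold A3
  rw [A0_eq_Bm]

theorem bet_root (hd4 : 4 ≤ d) :
    GH.bet ((d : ℤ) - 1) ^ 2 = ((d : ℝ) - 1) * GH.bet ((d : ℤ) - 1) - 1 := by
  have h1 := GH.bet_eq (T := (d : ℤ) - 1) (by omega)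
  push_cast at h1
  linear_combination h1

theorem one_lt_bet (hd4 : 4 ≤ d) : 1 < GH.bet ((d : ℤ) - 1) := GH.bet_gt (by omega)

/-- the version with an arbitrary name for the base map -/
theorem hasGhost_of_map (hd4 : 4 ≤ d) {S : ℝ → ℝ → ℝ → ℝ} (hS : CS S) (B : V ≃+ V)
    (hB : B = A0 d) {θ : ℝ} (hθ1 : 1 < θ) (hθ : θ ^ 2 = ((d : ℝ) - 1) * θ - 1)
    [inst : Fintype (GH.Fx (pw B 3) GH.Zl)]
    (ng : GH.NG (θ ^ 3)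
      (fun x y : GH.Fx (pw B 3) GH.Zl =>
        GH.psi (pw B 3) GH.Zl 1 (x : V ⧸ GH.Zl) (y : V ⧸ GH.Zl))
      (fun x => GH.cL S θ (pw B 3) GH.Zl (x : V ⧸ GH.Zl))
      (fun x => GH.zL θ (pw B 3) GH.Zl (x : V ⧸ GH.Zl)))
    (hz : ∀ p : V, (QuotientAddGroup.mk p : V ⧸ GH.Zl) ∈ GH.Fx (pw B 3) GH.Zl →
      GH.zL θ (pw B 3) GH.Zl (QuotientAddGroup.mk (B p))
        = GH.zL θ (pw B 3) GH.Zl (QuotientAddGroup.mk p)) : HasGhost d := by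
  subst hB
  let _ : Fintype (GH.Fx (A3 d) GH.Zl) := inst
  refine hasGhost_of_ng (d := d) hd4 hS hθ1 hθ ng (fun x hx => ?_)
  obtain ⟨p, rfl⟩ := QuotientAddGroup.mk_surjective x
  exact hz p hx

/-- the version with an arbitrary name for the base map -/
theorem hasFid_of_map (hd4 : 4 ≤ d) {S : ℝ → ℝ → ℝ → ℝ} (hS : CS S) (B : V ≃+ V)
    (hB : B = A0 d) {θ : ℝ} (hθ1 : 1 < θ) (hθ : θ ^ 2 = ((d : ℝ) - 1) * θ - 1)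
    [inst : Fintype (GH.Fx (pw B 3) GH.Zl)]
    (ng : GH.NG (θ ^ 3)
      (fun x y : GH.Fx (pw B 3) GH.Zl =>
        GH.psi (pw B 3) GH.Zl 1 (x : V ⧸ GH.Zl) (y : V ⧸ GH.Zl))
      (fun x => GH.cL S θ (pw B 3) GH.Zl (x : V ⧸ GH.Zl))
      (fun x => GH.zL θ (pw B 3) GH.Zl (x : V ⧸ GH.Zl)))
    (hz : ∀ p : V, (QuotientAddGroup.mk p : V ⧸ GH.Zl) ∈ GH.Fx (pw B 3) GH.Zl →
      GH.zL θ (pw B 3) GH.Zl (QuotientAddGroup.mk (B p))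
        = GH.zL θ (pw B 3) GH.Zl (QuotientAddGroup.mk p))
    (sig : ℂ →+* ℂ)
    (hsig : ∀ x : V ⧸ GH.Zl, x ∈ GH.Fx (pw B 3) GH.Zl → x ≠ 0 →
      ‖sig ((GH.cL S θ (pw B 3) GH.Zl x : ℝ) : ℂ)‖ = 1) : HasFid d := by
  subst hB
  let _ : Fintype (GH.Fx (A3 d) GH.Zl) := inst
  refine hasFid_of_ng (d := d) hd4 hS hθ1 hθ ng (fun x hx => ?_) sig
    (fun x hx => hsig _ x.2 fun h => hx (Subtype.ext h))
  obtain ⟨p, rfl⟩ := QuotientAddGroup.mk_surjective x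
  exact hz p hx

/-- **Near group data for `Bm ^ 3` give the idempotents.** -/
theorem hasGhost_of_bet (hd4 : 4 ≤ d) {S : ℝ → ℝ → ℝ → ℝ} (hS : CS S) {T : ℤ}
    (hT : T = (d : ℤ) - 1) [Fintype (GH.Fx (pw (GH.Bm T) 3) GH.Zl)]
    (ng : GH.NG (GH.bet T ^ 3)
      (fun x y : GH.Fx (pw (GH.Bm T) 3) GH.Zl =>
        GH.psi (pw (GH.Bm T) 3) GH.Zl 1 (x : V ⧸ GH.Zl) (y : V ⧸ GH.Zl))
      (fun x => GH.cL S (GH.bet T) (pw (GH.Bm T) 3) GH.Zl (x : V ⧸ GH.Zl))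
      (fun x => GH.zL (GH.bet T) (pw (GH.Bm T) 3) GH.Zl (x : V ⧸ GH.Zl)))
    (hz : ∀ p : V, (QuotientAddGroup.mk p : V ⧸ GH.Zl) ∈ GH.Fx (pw (GH.Bm T) 3) GH.Zl →
      GH.zL (GH.bet T) (pw (GH.Bm T) 3) GH.Zl (QuotientAddGroup.mk (GH.Bm T p))
        = GH.zL (GH.bet T) (pw (GH.Bm T) 3) GH.Zl (QuotientAddGroup.mk p)) : HasGhost d := by
  subst hT
  exact hasGhost_of_map hd4 hS _ (A0_eq_Bm d).symm (one_lt_bet hd4) (bet_root hd4) ng hz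

/-- **Near group data for `Bm ^ 3` and a field homomorphism give a fiducial vector.** -/
theorem hasFid_of_bet (hd4 : 4 ≤ d) {S : ℝ → ℝ → ℝ → ℝ} (hS : CS S) {T : ℤ}
    (hT : T = (d : ℤ) - 1) [Fintype (GH.Fx (pw (GH.Bm T) 3) GH.Zl)]
    (ng : GH.NG (GH.bet T ^ 3)
      (fun x y : GH.Fx (pw (GH.Bm T) 3) GH.Zl =>
        GH.psi (pw (GH.Bm T) 3) GH.Zl 1 (x : V ⧸ GH.Zl) (y : V ⧸ GH.Zl))
      (fun x => GH.cL S (GH.bet T) (pw (GH.Bm T) 3) GH.Zl (x : V ⧸ GH.Zl))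
      (fun x => GH.zL (GH.bet T) (pw (GH.Bm T) 3) GH.Zl (x : V ⧸ GH.Zl)))
    (hz : ∀ p : V, (QuotientAddGroup.mk p : V ⧸ GH.Zl) ∈ GH.Fx (pw (GH.Bm T) 3) GH.Zl →
      GH.zL (GH.bet T) (pw (GH.Bm T) 3) GH.Zl (QuotientAddGroup.mk (GH.Bm T p))
        = GH.zL (GH.bet T) (pw (GH.Bm T) 3) GH.Zl (QuotientAddGroup.mk p))
    (sig : ℂ →+* ℂ)
    (hsig : ∀ x : V ⧸ GH.Zl, x ∈ GH.Fx (pw (GH.Bm T) 3) GH.Zl → x ≠ 0 →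
      ‖sig ((GH.cL S (GH.bet T) (pw (GH.Bm T) 3) GH.Zl x : ℝ) : ℂ)‖ = 1) : HasFid d := by
  subst hT
  exact hasFid_of_map hd4 hS _ (A0_eq_Bm d).symm (one_lt_bet hd4) (bet_root hd4) ng hz sig hsig

/-- **Near group data for `Bm ^ 3` and a field homomorphism give equiangular lines.** -/
theorem hasETF_of_bet (hd4 : 4 ≤ d) {S : ℝ → ℝ → ℝ → ℝ} (hS : CS S) {T : ℤ}
    (hT : T = (d : ℤ) - 1) [Fintype (GH.Fx (pw (GH.Bm T) 3) GH.Zl)]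
    (ng : GH.NG (GH.bet T ^ 3)
      (fun x y : GH.Fx (pw (GH.Bm T) 3) GH.Zl =>
        GH.psi (pw (GH.Bm T) 3) GH.Zl 1 (x : V ⧸ GH.Zl) (y : V ⧸ GH.Zl))
      (fun x => GH.cL S (GH.bet T) (pw (GH.Bm T) 3) GH.Zl (x : V ⧸ GH.Zl))
      (fun x => GH.zL (GH.bet T) (pw (GH.Bm T) 3) GH.Zl (x : V ⧸ GH.Zl)))
    (hz : ∀ p : V, (QuotientAddGroup.mk p : V ⧸ GH.Zl) ∈ GH.Fx (pw (GH.Bm T) 3) GH.Zl →
      GH.zL (GH.bet T) (pw (GH.Bm T) 3) GH.Zl (QuotientAddGroup.mk (GH.Bm T p))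
        = GH.zL (GH.bet T) (pw (GH.Bm T) 3) GH.Zl (QuotientAddGroup.mk p))
    (sig : ℂ →+* ℂ)
    (hsig : ∀ x : V ⧸ GH.Zl, x ∈ GH.Fx (pw (GH.Bm T) 3) GH.Zl → x ≠ 0 →
      ‖sig ((GH.cL S (GH.bet T) (pw (GH.Bm T) 3) GH.Zl x : ℝ) : ℂ)‖ = 1) : HasETF d :=
  (hasFid_of_bet hd4 hS hT ng hz sig hsig).hasETF

end Pool.Agent.Lib.MP_d0f9e0_co.AV12
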