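import Pool.Agent.Lib.MP_d0f9e0_co.AV12.Tw

/-!
# Averaging the finite beta identity over `ker (L - 1)`

`G` finite abelian group with automorphism `L`, `psi` a pairing, `E : G → M` with the finite beta
identity (A2).  `io : ZMod d × ZMod d → G` parametrises the orthogonal complement of
`ker (L - 1)`.  The average of (A2) over `ker (L - 1)` is the twisted convolution identity.
-/

set_option autoImplicit false
set_option linter.unusedSectionVars false

open scoped BigOperators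

namespace Pool.Agent.Lib.MP_d0f9e0_co.AV12

open Pool.Agent.Lib.MP_d0f9e0_co.FN

variable {M : Type*} [Field M] {d : ℕ} [NeZero d] {G : Type*} [AddCommGroup G] [Fintype G]
  [DecidableEq G]

/-- Input of the averaging step. -/
structure In (M : Type*) [Field M] (d : ℕ) [NeZero d] (G : Type*) [AddCommGroup G] [Fintype G]
    [DecidableEq G] where
  L : G ≃+ G
  psi : G → G → M
  E : G → M
  e : AddChar (ZMod d) M
  io : ZMod d × ZMod d →+ G
  io_inj : Function.Injective io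
  z0 : M
  z0_ne : z0 ≠ 0
  hh : M
  hh_ne : hh ≠ 0
  kap : M
  K1 : Finset G
  K1_mem : ∀ x ∈ K1, L x = x
  K1_card : (K1.card : M) ≠ 0
  psi_add : ∀ x y y', psi x (y + y') = psi x y * psi x y'
  orth : ∀ a, ∑ t ∈ K1, psi a t = if a ∈ Set.range io then (K1.card : M) else 0
  E_ne : ∀ x, x ≠ 0 → E x ≠ 0
  E_L : ∀ x, E (L x) = E x
  surj : ∀ l, ∃ y, L y = y + io l
  psi_io : ∀ k l y, L y = y + io l →
    psi (io k) y = e (-(k.1 * l.1) - k.2 * l.2 + k.2 * l.1)
  E_io : ∀ k, k ≠ 0 → E (io k) * E (io (-k)) = z0 ^ 2 * e (k.1 * k.1 - k.1 * k.2 + k.2 * k.2)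
  A2 : ∀ p, p ≠ 0 → ∀ y, y ≠ 0 → y + p ≠ 0 →
    ∑ a, (if a = 0 then hh * z0 else E a) / (if a - p = 0 then hh⁻¹ * z0 else E (a - p)) * psi a y
      = kap / z0 * psi p y * E p * (E y / E (y + p))

namespace In

variable (D : In M d G)

/-- The normalised function. -/
noncomputable def F (k : ZMod d × ZMod d) : M := D.E (D.io k) / D.z0

theorem io_ne {k : ZMod d × ZMod d} (hk : k ≠ 0) : D.io k ≠ 0 := by
  intro h
  apply hk
  apply D.io_inj
  rw [h, map_zero]

theorem F_inv (k : ZMod d × ZMod d) (hk : k ≠ 0) :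
    D.F k * D.F (-k) = D.e (k.1 * k.1 - k.1 * k.2 + k.2 * k.2) := by
  have h := D.E_io k hk
  have hz := D.z0_ne
  unfold F
  rw [div_mul_div_comm, h]
  field_simp

/-- The identity (A2) averaged over `K1`. -/
theorem avg (l : ZMod d × ZMod d) (hl : l ≠ 0) (y : G) (hy : D.L y = y + D.io l) :
    ∑ k, (if k = 0 then D.hh * D.z0 else D.E (D.io k))
        / (if k - l = 0 then D.hh⁻¹ * D.z0 else D.E (D.io (k - l))) * D.psi (D.io k) y
      = D.kap / D.z0 * D.psi (D.io l) y * D.E (D.io l) := by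
  classical
  have hp := D.io_ne hl
  set p := D.io l with hpdef
  have hK := D.K1_card
  set T : G → M := fun a => (if a = 0 then D.hh * D.z0 else D.E a)
    / (if a - p = 0 then D.hh⁻¹ * D.z0 else D.E (a - p)) with hT
  have h1 : ∀ t ∈ D.K1, ∑ a, T a * D.psi a (y + t) = D.kap / D.z0 * D.psi p (y + t) * D.E p := by
    intro t ht
    have ht' := D.K1_mem t ht
    have h2 : D.L (y + t) = (y + t) + p := by rw [map_add, hy, ht']; abel
    have h3 : y + t ≠ 0 := by
      intro h0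
      rw [h0, map_zero, zero_add] at h2
      exact hp h2.symm
    have h4 : y + t + p ≠ 0 := by
      rw [← h2]
      intro h0
      exact h3 ((map_eq_zero_iff D.L D.L.injective).1 h0)
    have h5 := D.A2 p hp (y + t) h3 h4
    rw [h5, ← h2, D.E_L, div_self (D.E_ne _ h3), mul_one]
  have h2 : ∑ t ∈ D.K1, ∑ a, T a * D.psi a (y + t)
      = ∑ t ∈ D.K1, D.kap / D.z0 * D.psi p (y + t) * D.E p := Finset.sum_congr rfl h1
  have h3 : ∑ t ∈ D.K1, ∑ a, T a * D.psi a (y + t)
      = (D.K1.card : M) * ∑ k, T (D.io k) * D.psi (D.io k) y := by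
    rw [Finset.sum_comm]
    have h4 : ∀ a, ∑ t ∈ D.K1, T a * D.psi a (y + t)
        = if a ∈ Set.range D.io then (D.K1.card : M) * (T a * D.psi a y) else 0 := by
      intro a
      have h5 : ∑ t ∈ D.K1, T a * D.psi a (y + t) = T a * D.psi a y * ∑ t ∈ D.K1, D.psi a t := by
        rw [Finset.mul_sum]
        refine Finset.sum_congr rfl fun t _ => ?_
        rw [D.psi_add]
        ring
      rw [h5, D.orth]
      split_ifs <;> ring
    rw [Finset.sum_congr rfl fun a _ => h4 a, ← Finset.sum_filter, Finset.mul_sum]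
    symm
    refine Finset.sum_bij (fun k _ => D.io k) ?_ ?_ ?_ ?_
    · intro k _
      simp
    · intro k _ k' _ h
      exact D.io_inj h
    · intro b hb
      obtain ⟨k, hk⟩ := (Finset.mem_filter.1 hb).2
      exact ⟨k, Finset.mem_univ _, hk⟩
    · intro k _
      rfl
  have h4 : ∑ t ∈ D.K1, D.kap / D.z0 * D.psi p (y + t) * D.E p
      = (D.K1.card : M) * (D.kap / D.z0 * D.psi p y * D.E p) := by
    have h5 : ∑ t ∈ D.K1, D.kap / D.z0 * D.psi p (y + t) * D.E p
        = D.kap / D.z0 * D.psi p y * D.E p * ∑ t ∈ D.K1, D.psi p t := by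
      rw [Finset.mul_sum]
      refine Finset.sum_congr rfl fun t _ => ?_
      rw [D.psi_add]
      ring
    rw [h5, D.orth, if_pos ⟨l, rfl⟩]
    ring
  have h5 := mul_left_cancel₀ hK (h3.symm.trans (h2.trans h4))
  rw [← h5]
  refine Finset.sum_congr rfl fun k _ => ?_
  have h6 : (D.io k = 0) ↔ k = 0 :=
    ⟨fun h => D.io_inj (by rw [h, map_zero]), fun h => by rw [h, map_zero]⟩
  have h7 : (D.io k - p = 0) ↔ k - l = 0 := by
    rw [hpdef, ← map_sub]
    exact ⟨fun h => D.io_inj (by rw [h, map_zero]), fun h => by rw [h, map_zero]⟩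
  rw [hT]
  simp only [h6, h7]
  rw [hpdef, ← map_sub]

theorem e_ne (x : ZMod d) : D.e x ≠ 0 := by
  intro h0
  have h5 : D.e x * D.e (-x) = 1 := by
    rw [← AddChar.map_add_eq_mul, add_neg_cancel, AddChar.map_zero_eq_one]
  rw [h0, zero_mul] at h5
  exact zero_ne_one h5

/-- Twisted convolution identity. -/
theorem F_conv (l : ZMod d × ZMod d) (hl : l ≠ 0) :
    ∑ k ∈ (Finset.univ.erase 0).erase l,
        D.F k * D.F (l - k) * D.e (k.1 * (l - k).1 + k.2 * (l - k).2 - k.1 * (l - k).2)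
      = (D.kap - 2 * D.hh) * D.F l := by
  obtain ⟨y, hy⟩ := D.surj l
  have h1 := D.avg l hl y hy
  have hz := D.z0_ne
  have hh := D.hh_ne
  have hEl := D.E_ne _ (D.io_ne hl)
  have hneg : D.E (D.io (-l)) = D.z0 ^ 2 * D.e (l.1 * l.1 - l.1 * l.2 + l.2 * l.2)
      / D.E (D.io l) := by
    rw [eq_div_iff hEl, mul_comm]
    exact D.E_io l hl
  have hNl : D.psi (D.io l) y * D.e (l.1 * l.1 - l.1 * l.2 + l.2 * l.2) = 1 := by
    rw [D.psi_io l l y hy, ← AddChar.map_add_eq_mul]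
    have : -(l.1 * l.1) - l.2 * l.2 + l.2 * l.1 + (l.1 * l.1 - l.1 * l.2 + l.2 * l.2) = 0 := by
      ring
    rw [this, AddChar.map_zero_eq_one]
  rw [← Finset.add_sum_erase Finset.univ _ (Finset.mem_univ (0 : ZMod d × ZMod d)),
    ← Finset.add_sum_erase (Finset.univ.erase 0) _ (Finset.mem_erase.2 ⟨hl, Finset.mem_univ l⟩)]
    at h1
  have h3 : ∀ k ∈ ((Finset.univ : Finset (ZMod d × ZMod d)).erase 0).erase l,
      (if k = 0 then D.hh * D.z0 else D.E (D.io k))
        / (if k - l = 0 then D.hh⁻¹ * D.z0 else D.E (D.io (k - l))) * D.psi (D.io k) y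
      = D.psi (D.io l) y
        * (D.F k * D.F (l - k) * D.e (k.1 * (l - k).1 + k.2 * (l - k).2 - k.1 * (l - k).2)) := by
    intro k hk
    have hkl : k ≠ l := Finset.ne_of_mem_erase hk
    have hk0 : k ≠ 0 := Finset.ne_of_mem_erase (Finset.mem_of_mem_erase hk)
    have hm : l - k ≠ 0 := fun h' => hkl (sub_eq_zero.1 h').symm
    have hm' : k - l ≠ 0 := sub_ne_zero.2 hkl
    rw [if_neg hk0, if_neg hm']
    have h4 := D.E_io (k - l) hm'
    rw [neg_sub] at h4
    have h5 : D.E (D.io (k - l)) ≠ 0 := D.E_ne _ (D.io_ne hm')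
    have h6 : D.E (D.io (l - k)) = D.z0 ^ 2
        * D.e ((k - l).1 * (k - l).1 - (k - l).1 * (k - l).2 + (k - l).2 * (k - l).2)
        / D.E (D.io (k - l)) := by
      rw [eq_div_iff h5, mul_comm]
      exact h4
    have h7 : D.psi (D.io k) y
        = D.psi (D.io l) y
          * D.e ((k - l).1 * (k - l).1 - (k - l).1 * (k - l).2 + (k - l).2 * (k - l).2)
          * D.e (k.1 * (l - k).1 + k.2 * (l - k).2 - k.1 * (l - k).2) := by
      rw [D.psi_io k l y hy, D.psi_io l l y hy, ← AddChar.map_add_eq_mul,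
        ← AddChar.map_add_eq_mul]
      congr 1
      simp only [Prod.fst_sub, Prod.snd_sub]
      ring
    unfold F
    rw [h6, h7]
    field_simp
  rw [Finset.sum_congr rfl h3, ← Finset.mul_sum] at h1
  set S := ∑ k ∈ ((Finset.univ : Finset (ZMod d × ZMod d)).erase 0).erase l,
    D.F k * D.F (l - k) * D.e (k.1 * (l - k).1 + k.2 * (l - k).2 - k.1 * (l - k).2) with hS
  have hl' : (0 : ZMod d × ZMod d) - l ≠ 0 := by simpa using hl
  rw [if_pos rfl, if_neg hl', if_neg hl, if_pos (sub_self l), zero_sub, hneg] at h1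
  have hpsi0 : D.psi (D.io 0) y = 1 := by
    rw [D.psi_io 0 l y hy]
    simp
  rw [hpsi0] at h1
  have hP : D.psi (D.io l) y ≠ 0 := fun h0 => by
    rw [h0, zero_mul] at hNl
    exact zero_ne_one hNl
  have heN : D.e (l.1 * l.1 - l.1 * l.2 + l.2 * l.2) = (D.psi (D.io l) y)⁻¹ :=
    eq_inv_of_mul_eq_one_right hNl
  rw [heN] at h1
  unfold F
  field_simp at h1 ⊢
  linear_combination h1

/-- The data of the idempotent. -/
noncomputable def dat (he : D.e.IsPrimitive) (tau s : M) (h2 : tau ^ 2 = D.e 1)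
    (h : tau ^ (d ^ 2) = 1) (hs : s ^ 2 = (d : M) + 1) (hs0 : s ≠ 0)
    (hkap : D.kap = D.hh - D.hh⁻¹) (hsum : D.hh + D.hh⁻¹ = ((d : M) - 2) * s) : Dat M d :=
  mkDat D.e he tau s h2 h hs hs0 D.F D.F_inv fun l hl => by
    rw [D.F_conv l hl, hkap, ← hsum]
    ring

theorem dat_a (he : D.e.IsPrimitive) (tau s : M) (h2 : tau ^ 2 = D.e 1)
    (h : tau ^ (d ^ 2) = 1) (hs : s ^ 2 = (d : M) + 1) (hs0 : s ≠ 0)
    (hkap : D.kap = D.hh - D.hh⁻¹) (hsum : D.hh + D.hh⁻¹ = ((d : M) - 2) * s)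
    (k : ZMod d × ZMod d) (hk : k ≠ 0) :
    (D.dat he tau s h2 h hs hs0 hkap hsum).a k
      = -(s⁻¹) * (D.E (D.io k) / D.z0) * (tq tau (k.1 - k.2))⁻¹ :=
  aC_ne _ _ _ hk

end In

end Pool.Agent.Lib.MP_d0f9e0_co.AV12
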