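import Pool.Agent.Lib.MP_d0f9e0_co.AV12.Avg

/-!
# From the averaged data and a field homomorphism to equiangular lines
-/

set_option autoImplicit false
set_option linter.unusedSectionVars false

open scoped BigOperators

namespace Pool.Agent.Lib.MP_d0f9e0_co.AV12

open Pool.Agent.Lib.MP_d0f9e0_co.FN

variable {d : ℕ} [NeZero d] {G : Type*} [AddCommGroup G] [Fintype G] [DecidableEq G]

/-- A `2d`-th root of the character value with `tau ^ (d^2) = 1`. -/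
theorem exists_tau (e : AddChar (ZMod d) ℂ) :
    ∃ tau : ℂ, tau ^ 2 = e 1 ∧ tau ^ (d ^ 2) = 1 := by
  have h1 : (e 1) ^ d = 1 := by
    rw [← AddChar.map_nsmul_eq_pow]
    simp
  rcases Nat.even_or_odd d with h | h
  · obtain ⟨m, hm⟩ := h
    obtain ⟨t, ht⟩ := IsAlgClosed.exists_pow_nat_eq (e 1) (n := 2) (by norm_num)
    refine ⟨t, ht, ?_⟩
    have h2 : d ^ 2 = 2 * (d * m) := by rw [hm]; ring
    rw [h2, pow_mul, ht, pow_mul, h1, one_pow]
  · obtain ⟨m, hm⟩ := h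
    refine ⟨(e 1) ^ (m + 1), ?_, ?_⟩
    · rw [← pow_mul]
      have h2 : (m + 1) * 2 = d + 1 := by omega
      rw [h2, pow_succ, h1, one_mul]
    · rw [← pow_mul]
      have h2 : (m + 1) * d ^ 2 = d * ((m + 1) * d) := by ring
      rw [h2, pow_mul, h1, one_pow]

theorem norm_of_pow_eq_one {z : ℂ} {n : ℕ} (hn : n ≠ 0) (h : z ^ n = 1) : ‖z‖ = 1 := by
  have h1 : ‖z‖ ^ n = 1 := by rw [← norm_pow, h, norm_one]
  exact (pow_eq_one_iff_of_nonneg (norm_nonneg z) hn).1 h1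

/-- The equiangular lines in dimension `d`. -/
theorem In.hasETF (D : In ℂ d G) (he : D.e.IsPrimitive)
    (hkap : D.kap = D.hh - D.hh⁻¹)
    (hsum : D.hh + D.hh⁻¹ = ((d : ℂ) - 2) * (Real.sqrt ((d : ℝ) + 1) : ℝ))
    (sig : ℂ →+* ℂ) (hsig : ∀ k, k ≠ 0 → ‖sig (D.E (D.io k) / D.z0)‖ = 1) : HasETF d := by
  obtain ⟨tau, h2, h⟩ := exists_tau D.e
  have hpos : (0 : ℝ) < (d : ℝ) + 1 := by positivity
  have hs : ((Real.sqrt ((d : ℝ) + 1) : ℝ) : ℂ) ^ 2 = (d : ℂ) + 1 := by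
    rw [← Complex.ofReal_pow, Real.sq_sqrt hpos.le]
    push_cast
    rfl
  have hs0 : ((Real.sqrt ((d : ℝ) + 1) : ℝ) : ℂ) ≠ 0 := by
    have := Real.sqrt_pos.2 hpos
    exact_mod_cast this.ne'
  refine (D.dat he tau _ h2 h hs hs0 hkap hsum).hasETF_of_hom sig fun k hk => ?_
  rw [D.dat_a he tau _ h2 h hs hs0 hkap hsum k hk]
  rw [map_mul, map_mul, map_neg, map_inv₀, map_inv₀, norm_mul, norm_mul, norm_neg, norm_inv,
    norm_inv, hsig k hk]
  have h3 : ‖sig (tq tau (k.1 - k.2))‖ = 1 := by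
    have h4 : (sig (tq tau (k.1 - k.2))) ^ (d ^ 2) = 1 := by
      rw [← map_pow]
      unfold tq
      rw [← pow_mul, mul_comm, pow_mul, h, one_pow, map_one]
    exact norm_of_pow_eq_one (pow_ne_zero 2 (NeZero.ne d)) h4
  have h5 : ‖sig ((Real.sqrt ((d : ℝ) + 1) : ℝ) : ℂ)‖ ^ 2 = (d : ℝ) + 1 := by
    rw [← norm_pow, ← map_pow, hs, map_add, map_natCast, map_one]
    have : ((d : ℂ) + 1) = (((d : ℝ) + 1 : ℝ) : ℂ) := by push_cast; rfl
    rw [this, Complex.norm_real, Real.norm_of_nonneg hpos.le]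
  rw [h3, inv_one, mul_one, mul_one, inv_pow, h5, one_div]

end Pool.Agent.Lib.MP_d0f9e0_co.AV12
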