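import Pool.Agent.Lib.MP_d0f9e0_co.AV12.Io
import Pool.Agent.Lib.MP_d0f9e0_co.AV12.Fin

/-!
# From near group data for `A0 ^ 3` to equiangular lines
-/

set_option autoImplicit false

open scoped BigOperators

namespace Pool.Agent.Lib.MP_d0f9e0_co.AV12

open Pool.MP_d0f9e0_co.SH Pool.MP_d0f9e0_co.GH Pool.Agent.Lib.MP_d0f9e0_co.FN

variable {d : ℕ} [NeZero d]

/-- the pairing of the group of fixed points -/
noncomputable def ps (d : ℕ) (x y : Fx (A3 d) Zl) : ℂ := psi (A3 d) Zl 1 (x : V ⧸ Zl) (y : V ⧸ Zl)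

section abs

variable [Fintype (Fx (A3 d) Zl)] {η : ℝ} {c : Fx (A3 d) Zl → ℝ} {z : Fx (A3 d) Zl → ℂ}

theorem ng_z_ne (ng : NG η (ps d) c z) (x : Fx (A3 d) Zl) : z x ≠ 0 := by
  intro h
  have := ng.znorm x
  rw [h, norm_zero] at this
  exact zero_ne_one this

theorem ng_add_right (ng : NG η (ps d) c z) (x y w : Fx (A3 d) Zl) :
    ps d x (y + w) = ps d x y * ps d x w := by
  rw [ng.symm x (y + w), ng.add, ng.symm y x, ng.symm w x]

theorem ps_io (k : ZMod d × ZMod d) (t : Fx (A3 d) Zl) (ht : LG d t = t) :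
    ps d (io d k) t = 1 := by
  unfold ps
  rw [psi_io k 0 t (by rw [ht, map_zero, add_zero])]
  simp

/-- the quadratic phases on the `d`-torsion -/
theorem zio (ng : NG η (ps d) c z) (hz : ∀ x, z (LG d x) = z x) (k : ZMod d × ZMod d) :
    z (io d k) ^ 2 = z 0 ^ 2 * ZMod.stdAddChar (N := d) (k.1 * k.1 - k.1 * k.2 + k.2 * k.2) := by
  have hz0 := ng_z_ne ng 0
  set e := ZMod.stdAddChar (N := d) with he
  have ene : ∀ x, e x ≠ 0 := fun x h0 => by
    have h5 : e x * e (-x) = 1 := by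
      rw [← AddChar.map_add_eq_mul, add_neg_cancel, AddChar.map_zero_eq_one]
    rw [h0, zero_mul] at h5
    exact zero_ne_one h5
  -- the pairing on the `d`-torsion
  have hps : ∀ k l : ZMod d × ZMod d, ps d (io d k) (io d l)
      = e (2 * (k.1 * l.1) - k.1 * l.2 - k.2 * l.1 + 2 * (k.2 * l.2)) := by
    intro k l
    have h1 : LG d (io d l) = io d l + io d (l.2 - 2 * l.1, -l.1 - l.2) := by
      rw [LG_io', ← map_add]
      congr 1
      ext <;> simp <;> ring
    unfold ps
    rw [psi_io k _ _ h1]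
    congr 1
    simp only
    ring
  set r : ZMod d × ZMod d → ℂ := fun k =>
    z (io d k) ^ 2 / (z 0 ^ 2 * e (k.1 * k.1 - k.1 * k.2 + k.2 * k.2)) with hr
  have radd : ∀ k l, r (k + l) = r k * r l := by
    intro k l
    have h1 := ng.zquad (io d k) (io d l)
    rw [hps, ← map_add] at h1
    have h2 : e ((k + l).1 * (k + l).1 - (k + l).1 * (k + l).2 + (k + l).2 * (k + l).2)
        = e (k.1 * k.1 - k.1 * k.2 + k.2 * k.2) * e (l.1 * l.1 - l.1 * l.2 + l.2 * l.2)
          * e (2 * (k.1 * l.1) - k.1 * l.2 - k.2 * l.1 + 2 * (k.2 * l.2)) := by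
      rw [← AddChar.map_add_eq_mul, ← AddChar.map_add_eq_mul]
      congr 1
      simp only [Prod.fst_add, Prod.snd_add]
      ring
    have h3 := ene (k.1 * k.1 - k.1 * k.2 + k.2 * k.2)
    have h4 := ene (l.1 * l.1 - l.1 * l.2 + l.2 * l.2)
    have h5 := ene (2 * (k.1 * l.1) - k.1 * l.2 - k.2 * l.1 + 2 * (k.2 * l.2))
    simp only [hr]
    rw [h2]
    field_simp
    linear_combination h1
  have r0 : r 0 = 1 := by
    simp only [hr]
    rw [map_zero]
    simp only [Prod.fst_zero, Prod.snd_zero, mul_zero, sub_zero, add_zero,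
      AddChar.map_zero_eq_one, mul_one]
    exact div_self (pow_ne_zero 2 hz0)
  have rneg : ∀ k, r (-k) = r k := by
    intro k
    simp only [hr]
    rw [map_neg, ng.zneg]
    congr 3
    simp only [Prod.fst_neg, Prod.snd_neg]
    ring
  have rL : ∀ k : ZMod d × ZMod d, r (k.2 - k.1, -k.1) = r k := by
    intro k
    simp only [hr]
    rw [← LG_io', hz]
    congr 3
    ring
  have r2 : r k * r k = 1 := by
    have := radd k (-k)
    rw [add_neg_cancel, r0, rneg] at this
    exact this.symm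
  have r3 : r k * r k * r k = 1 := by
    have h1 : k + (k.2 - k.1, -k.1) + ((-k.1) - (k.2 - k.1), -(k.2 - k.1)) = 0 := by
      ext
      · simp only [Prod.fst_add, Prod.fst_zero]; ring
      · simp only [Prod.snd_add, Prod.snd_zero]; ring
    have h2 := radd (k + (k.2 - k.1, -k.1)) ((-k.1) - (k.2 - k.1), -(k.2 - k.1))
    rw [h1, r0, radd] at h2
    have h3 : r ((-k.1) - (k.2 - k.1), -(k.2 - k.1)) = r (k.2 - k.1, -k.1) :=
      rL (k.2 - k.1, -k.1)
    rw [h3, rL k] at h2
    exact h2.symm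
  have r1 : r k = 1 := by
    rw [r2, one_mul] at r3
    exact r3
  have h3 := ene (k.1 * k.1 - k.1 * k.2 + k.2 * k.2)
  simp only [hr] at r1
  rw [div_eq_one_iff_eq (mul_ne_zero (pow_ne_zero 2 hz0) h3)] at r1
  exact r1

open Classical in
/-- The input data of the averaging step. -/
noncomputable def mkIn (hd4 : 4 ≤ d) (ng : NG η (ps d) c z) (hc : ∀ x, c (LG d x) = c x)
    (hz : ∀ x, z (LG d x) = z x) : In ℂ d (Fx (A3 d) Zl) where
  L := LG d
  psi := ps d
  E x := (c x : ℂ) * z x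
  e := ZMod.stdAddChar (N := d)
  io := io d
  io_inj := io_inj
  z0 := z 0
  z0_ne := ng_z_ne ng 0
  hh := ((Real.sqrt η : ℝ) : ℂ)
  hh_ne := by
    have h1 := Real.sqrt_pos.2 (lt_trans one_pos ng.one_lt)
    exact_mod_cast h1.ne'
  kap := ((Real.sqrt η - (Real.sqrt η)⁻¹ : ℝ) : ℂ)
  K1 := Finset.univ.filter fun x => LG d x = x
  K1_mem x hx := (Finset.mem_filter.1 hx).2
  K1_card := by
    have h1 : (0 : Fx (A3 d) Zl) ∈ Finset.univ.filter fun x => LG d x = x :=
      Finset.mem_filter.2 ⟨Finset.mem_univ _, map_zero _⟩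
    have h2 := Finset.card_pos.2 ⟨_, h1⟩
    exact_mod_cast h2.ne'
  psi_add := ng_add_right ng
  orth a := by
    split_ifs with ha
    · obtain ⟨k, rfl⟩ := ha
      rw [Finset.sum_congr rfl fun t ht => ps_io k t (Finset.mem_filter.1 ht).2]
      simp
    · have h1 : ∃ t : Fx (A3 d) Zl, LG d t = t ∧ ps d a t ≠ 1 := by
        by_contra h2
        push Not at h2
        exact ha (mem_range hd4 a h2)
      obtain ⟨t0, ht0, hne⟩ := h1
      have h3 : ∑ t ∈ Finset.univ.filter (fun x => LG d x = x), ps d a t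
          = ps d a t0 * ∑ t ∈ Finset.univ.filter (fun x => LG d x = x), ps d a t := by
        rw [Finset.mul_sum]
        refine Finset.sum_bij' (fun t _ => t - t0) (fun t _ => t + t0) ?_ ?_ ?_ ?_ ?_
        · intro t ht
          refine Finset.mem_filter.2 ⟨Finset.mem_univ _, ?_⟩
          rw [map_sub, ht0, (Finset.mem_filter.1 ht).2]
        · intro t ht
          refine Finset.mem_filter.2 ⟨Finset.mem_univ _, ?_⟩
          rw [map_add, ht0, (Finset.mem_filter.1 ht).2]
        · intro t _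
          abel
        · intro t _
          abel
        · intro t _
          rw [← ng_add_right ng]
          congr 1
          abel
      have h4 : (1 - ps d a t0) * ∑ t ∈ Finset.univ.filter (fun x => LG d x = x), ps d a t = 0 := by
        linear_combination h3
      rcases mul_eq_zero.1 h4 with h5 | h5
      · exact absurd (sub_eq_zero.1 h5).symm hne
      · exact h5
  E_ne x _ := mul_ne_zero (by exact_mod_cast (ng.pos x).ne') (ng_z_ne ng x)
  E_L x := by rw [hc, hz]
  surj := surj hd4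
  psi_io := psi_io
  E_io k hk := by
    have h1 : io d k ≠ 0 := fun h => hk (io_inj (by rw [h, map_zero]))
    have h2 := ng.neg _ h1
    have h3 := zio ng hz k
    rw [map_neg, ng.zneg]
    have h4 : (c (io d k) : ℂ) * (c (-io d k) : ℂ) = 1 := by exact_mod_cast h2
    rw [← h3]
    linear_combination (z (io d k) ^ 2) * h4
  A2 p hp y hy hyp := by
    have h1 := ng.A2 p hp y
    have hz0 := ng_z_ne ng 0
    have hsq := Real.sqrt_pos.2 (lt_trans one_pos ng.one_lt)
    have hsq' : ((Real.sqrt η : ℝ) : ℂ) ≠ 0 := by exact_mod_cast hsq.ne'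
    have hcne : ∀ x, ((c x : ℝ) : ℂ) ≠ 0 := fun x => by exact_mod_cast (ng.pos x).ne'
    have hcneg : ∀ x, x ≠ 0 → ((c (-x) : ℝ) : ℂ) = ((c x : ℝ) : ℂ)⁻¹ := fun x hx => by
      have h9 : ((c x : ℝ) : ℂ) * ((c (-x) : ℝ) : ℂ) = 1 := by exact_mod_cast ng.neg x hx
      exact eq_inv_of_mul_eq_one_right h9
    have h2 : ∀ a, (if a = 0 then ((Real.sqrt η : ℝ) : ℂ) * z 0 else (c a : ℂ) * z a)
        / (if a - p = 0 then ((Real.sqrt η : ℝ) : ℂ)⁻¹ * z 0 else (c (a - p) : ℂ) * z (a - p))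
          * ps d a y
        = (c a : ℂ) * c (p - a) * (z a / z (a - p)) * ps d a y := by
      intro a
      have hza := ng_z_ne ng a
      have hzap := ng_z_ne ng (a - p)
      congr 1
      by_cases ha : a = 0
      · subst ha
        have hp' : (0 : Fx (A3 d) Zl) - p ≠ 0 := by simpa using hp
        rw [if_pos rfl, if_neg hp', ng.zero, sub_zero, zero_sub, hcneg p hp]
        have := hcne p
        have := ng_z_ne ng (-p)
        field_simp
      · rw [if_neg ha]
        by_cases hap : a - p = 0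
        · have : a = p := sub_eq_zero.1 hap
          subst this
          rw [if_pos hap, sub_self, ng.zero]
          field_simp
        · rw [if_neg hap]
          have h3 : p - a = -(a - p) := by abel
          rw [h3, hcneg _ hap]
          have := hcne (a - p)
          field_simp
    rw [Finset.sum_congr rfl fun a _ => h2 a, h1]
    have h4 : -y - p = -(y + p) := by abel
    rw [h4, hcneg _ hyp]
    have := hcne (y + p)
    have := ng_z_ne ng (y + p)
    field_simp

/-- From near group data and a field homomorphism to equiangular lines. -/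
theorem hasETF_of_NG (hd4 : 4 ≤ d) (ng : NG η (ps d) c z) (hc : ∀ x, c (LG d x) = c x)
    (hz : ∀ x, z (LG d x) = z x)
    (hη : η + η⁻¹ = ((d : ℝ) - 1) ^ 3 - 3 * ((d : ℝ) - 1)) (sig : ℂ →+* ℂ)
    (hsig : ∀ x, x ≠ 0 → ‖sig (c x : ℂ)‖ = 1) : HasETF d := by
  classical
  have hη0 : 0 < η := lt_trans one_pos ng.one_lt
  have hsq := Real.sqrt_pos.2 hη0
  have hd2 : (0 : ℝ) < (d : ℝ) - 2 := by
    have : (4 : ℝ) ≤ d := by exact_mod_cast hd4
    linarith
  have hsum : Real.sqrt η + (Real.sqrt η)⁻¹ = ((d : ℝ) - 2) * Real.sqrt ((d : ℝ) + 1) := by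
    have h1 : (Real.sqrt η + (Real.sqrt η)⁻¹) ^ 2 = (((d : ℝ) - 2) * Real.sqrt ((d : ℝ) + 1)) ^ 2 := by
      have h2 : Real.sqrt η ^ 2 = η := Real.sq_sqrt hη0.le
      have h3 : Real.sqrt ((d : ℝ) + 1) ^ 2 = (d : ℝ) + 1 := Real.sq_sqrt (by positivity)
      rw [mul_pow, h3, add_sq, h2, inv_pow, h2]
      have h4 : 2 * Real.sqrt η * (Real.sqrt η)⁻¹ = 2 := by field_simp
      rw [h4]
      linear_combination hη
    have h5 : (0 : ℝ) ≤ Real.sqrt η + (Real.sqrt η)⁻¹ := by positivity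
    have h6 : (0 : ℝ) ≤ ((d : ℝ) - 2) * Real.sqrt ((d : ℝ) + 1) := by positivity
    exact (pow_left_inj₀ h5 h6 two_ne_zero).1 h1
  refine (mkIn hd4 ng hc hz).hasETF (ZMod.isPrimitive_stdAddChar d) ?_ ?_ sig ?_
  · show ((Real.sqrt η - (Real.sqrt η)⁻¹ : ℝ) : ℂ)
      = ((Real.sqrt η : ℝ) : ℂ) - ((Real.sqrt η : ℝ) : ℂ)⁻¹
    push_cast
    rfl
  · show ((Real.sqrt η : ℝ) : ℂ) + ((Real.sqrt η : ℝ) : ℂ)⁻¹
      = ((d : ℂ) - 2) * (Real.sqrt ((d : ℝ) + 1) : ℝ)
    have h7 : ((Real.sqrt η : ℝ) : ℂ) + ((Real.sqrt η : ℝ) : ℂ)⁻¹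
        = ((Real.sqrt η + (Real.sqrt η)⁻¹ : ℝ) : ℂ) := by push_cast; rfl
    rw [h7, hsum]
    push_cast
    rfl
  · intro k hk
    have h1 : io d k ≠ 0 := fun h => hk (io_inj (by rw [h, map_zero]))
    show ‖sig ((c (io d k) : ℂ) * z (io d k) / z 0)‖ = 1
    have h2 : (z (io d k) / z 0) ^ (2 * d) = 1 := by
      rw [pow_mul, div_pow, zio ng hz k,
        mul_div_cancel_left₀ _ (pow_ne_zero 2 (ng_z_ne ng 0)), ← AddChar.map_nsmul_eq_pow]
      simp
    rw [mul_div_assoc, map_mul, norm_mul, hsig _ h1, one_mul]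
    refine norm_of_pow_eq_one (n := 2 * d) (mul_ne_zero two_ne_zero (NeZero.ne d)) ?_
    rw [← map_pow, h2, map_one]

end abs

end Pool.Agent.Lib.MP_d0f9e0_co.AV12
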