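import Pool.Agent.Lib.MP_d0f9e0_co.AV12.Conc

/-!
# The final form: class functions `cL`, `zL` of `A0 ^ 3` on `ℤ²`
-/

set_option autoImplicit false
set_option linter.unusedSectionVars false

open scoped BigOperators

namespace Pool.Agent.Lib.MP_d0f9e0_co.AV12

open Pool.MP_d0f9e0_co.SH Pool.MP_d0f9e0_co.GH Pool.Agent.Lib.MP_d0f9e0_co.FN

variable {d : ℕ} [NeZero d]

/-- a real root larger than one of `x^2 - (d-1) x + 1` is irrational -/
theorem irr_root {θ : ℝ} (hθ1 : 1 < θ) (hθ : θ ^ 2 = ((d : ℝ) - 1) * θ - 1) : Irrational θ := by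
  rintro ⟨r, rfl⟩
  have h1 : r ^ 2 = ((d : ℚ) - 1) * r - 1 := by exact_mod_cast hθ
  have h2 : IsIntegral ℤ r := by
    refine ⟨Polynomial.X ^ 2 - Polynomial.C ((d : ℤ) - 1) * Polynomial.X + Polynomial.C 1, ?_, ?_⟩
    · monicity!
    · simp only [Polynomial.eval₂_add, Polynomial.eval₂_sub, Polynomial.eval₂_mul,
        Polynomial.eval₂_pow, Polynomial.eval₂_X, Polynomial.eval₂_C]
      simp
      linear_combination h1
  obtain ⟨n, hn⟩ := IsIntegrallyClosed.isIntegral_iff.1 h2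
  have hn' : (n : ℚ) = r := by simpa using hn
  rw [← hn'] at h1 hθ1
  have h3 : n * ((d : ℤ) - 1 - n) = 1 := by
    have : ((n * ((d : ℤ) - 1 - n) : ℤ) : ℚ) = 1 := by push_cast; linear_combination -h1
    exact_mod_cast this
  have h4 : (1 : ℤ) < n := by exact_mod_cast hθ1
  rcases Int.eq_one_or_neg_one_of_mul_eq_one h3 with h5 | h5 <;> omega

theorem hyp_A0 {θ : ℝ} (hθ1 : 1 < θ) (hθ : θ ^ 2 = ((d : ℝ) - 1) * θ - 1) : Hyp θ (A0 d) θ where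
  det_eq := det_A0 d
  ell_eq p := by
    rw [A0_apply]
    unfold ell
    push_cast
    linear_combination (-(p.2 : ℝ)) * hθ
  pos := lt_trans one_pos hθ1

theorem hyp_A3 {θ : ℝ} (hθ1 : 1 < θ) (hθ : θ ^ 2 = ((d : ℝ) - 1) * θ - 1) :
    Hyp θ (A3 d) (θ ^ 3) := (hyp_A0 hθ1 hθ).pow 3

theorem disc_fib (x : V ⧸ Zl) : Disc (fib Zl x) := by
  obtain ⟨p, rfl⟩ := QuotientAddGroup.mk_surjective x
  refine ⟨p.1.den * p.2.den, Nat.mul_pos p.1.den_pos p.2.den_pos, ?_⟩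
  intro q hq
  have h1 : (QuotientAddGroup.mk q : V ⧸ Zl) = QuotientAddGroup.mk p := hq
  rw [QuotientAddGroup.eq] at h1
  obtain ⟨i, j, h2⟩ := mem_Zl.1 h1
  have e1 : q.1 = p.1 - i := by
    have := congrArg Prod.fst h2
    simp only [Prod.fst_add, Prod.fst_neg] at this
    linarith
  have e2 : q.2 = p.2 - j := by
    have := congrArg Prod.snd h2
    simp only [Prod.snd_add, Prod.snd_neg] at this
    linarith
  have d1 : (p.1.den : ℚ) * p.1 = p.1.num := by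
    have := Rat.den_mul_eq_num p.1
    exact this
  have d2 : (p.2.den : ℚ) * p.2 = p.2.num := by
    have := Rat.den_mul_eq_num p.2
    exact this
  refine ⟨p.2.den * p.1.num - p.1.den * p.2.den * i, p.1.den * p.2.num - p.1.den * p.2.den * j,
    ?_, ?_⟩
  · rw [e1]
    push_cast
    linear_combination (p.2.den : ℚ) * d1
  · rw [e2]
    push_cast
    linear_combination (p.1.den : ℚ) * d2

theorem inv_fib {x : V ⧸ Zl} (hx : x ∈ Fx (A3 d) Zl) : Inv (A3 d) (fib Zl x) := by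
  have key : ∀ p : V, (QuotientAddGroup.mk p : V ⧸ Zl) ∈ Fx (A3 d) Zl →
      (QuotientAddGroup.mk (A3 d p) : V ⧸ Zl) = QuotientAddGroup.mk p := by
    intro p hp
    rw [mk_mem_Fx] at hp
    rw [QuotientAddGroup.eq, ← neg_mem_iff]
    have : -(-(A3 d p) + p) = A3 d p - p := by abel
    rw [this]
    exact hp
  intro p
  show (QuotientAddGroup.mk (A3 d p) : V ⧸ Zl) = x ↔ (QuotientAddGroup.mk p : V ⧸ Zl) = x
  constructor
  · intro h
    have h1 : (QuotientAddGroup.mk (A3 d p) : V ⧸ Zl) ∈ Fx (A3 d) Zl := by rw [h]; exact hx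
    rw [mk_mem_Fx, ← map_sub] at h1
    have h2 : A3 d p - p ∈ Zl := by
      have h3 := A0_symm_mem (d := d) (A0_symm_mem (d := d) (A0_symm_mem (d := d) h1))
      rw [A3_apply' d (A3 d p - p), AddEquiv.symm_apply_apply, AddEquiv.symm_apply_apply,
        AddEquiv.symm_apply_apply] at h3
      exact h3
    rw [← h, key p (mk_mem_Fx.2 h2)]
  · intro h
    rw [← h] at hx ⊢
    exact key p hx

theorem adm_fib (hd4 : 4 ≤ d) (θ : ℝ) (x : V ⧸ Zl) :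
    Adm θ (A3 d) (fib Zl x) ((1 : ℚ), (0 : ℚ)) where
  per p := by
    show (QuotientAddGroup.mk (p + ((1 : ℚ), (0 : ℚ))) : V ⧸ Zl) = x
      ↔ (QuotientAddGroup.mk p : V ⧸ Zl) = x
    have : (QuotientAddGroup.mk (p + ((1 : ℚ), (0 : ℚ))) : V ⧸ Zl) = QuotientAddGroup.mk p := by
      rw [QuotientAddGroup.eq]
      refine mem_Zl.2 ⟨-1, 0, ?_⟩
      ext <;> simp
    rw [this]
  pos := by unfold ell; simp
  det_pos := by
    rw [A3_apply]
    unfold det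
    have : (4 : ℚ) ≤ d := by exact_mod_cast hd4
    simp only [mul_one, mul_zero, one_mul, zero_mul, sub_zero, add_zero]
    nlinarith

theorem cL_q0 (hd4 : 4 ≤ d) {S : ℝ → ℝ → ℝ → ℝ} (hS : CS S) {θ : ℝ} (hθ1 : 1 < θ)
    (hθ : θ ^ 2 = ((d : ℝ) - 1) * θ - 1) {x : V ⧸ Zl} (hx : x ∈ Fx (A3 d) Zl) :
    cL S θ (A3 d) Zl (q0 d x) = cL S θ (A3 d) Zl x := by
  unfold cL
  refine cls_map hS (irr_root hθ1 hθ) (irr_root hθ1 hθ) (hyp_A3 hθ1 hθ) (hyp_A3 hθ1 hθ)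
    (disc_fib _) (disc_fib _) (inv_fib hx) (A0 d) ?_ (δ := 1) one_pos ?_ (l := θ)
    (lt_trans one_pos hθ1) (hyp_A0 hθ1 hθ).ell_eq (fun p => (A3_comm d p).symm)
    (adm_fib hd4 θ x)
  · intro p
    show (QuotientAddGroup.mk (A0 d p) : V ⧸ Zl) = q0 d x ↔ (QuotientAddGroup.mk p : V ⧸ Zl) = x
    rw [← q0_mk, (q0 d).injective.eq_iff]
  · intro p q
    rw [det_A0, one_mul]

/-- **Near group data for `A0 ^ 3` and a field homomorphism give equiangular lines.** -/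
theorem hasETF_of_ng (hd4 : 4 ≤ d) {S : ℝ → ℝ → ℝ → ℝ} (hS : CS S) {θ : ℝ} (hθ1 : 1 < θ)
    (hθ : θ ^ 2 = ((d : ℝ) - 1) * θ - 1) [Fintype (Fx (A3 d) Zl)]
    (ng : NG (θ ^ 3) (fun x y : Fx (A3 d) Zl => psi (A3 d) Zl 1 (x : V ⧸ Zl) (y : V ⧸ Zl))
      (fun x => cL S θ (A3 d) Zl (x : V ⧸ Zl)) (fun x => zL θ (A3 d) Zl (x : V ⧸ Zl)))
    (hz : ∀ x ∈ Fx (A3 d) Zl, zL θ (A3 d) Zl (q0 d x) = zL θ (A3 d) Zl x)
    (sig : ℂ →+* ℂ)
    (hsig : ∀ x : Fx (A3 d) Zl, x ≠ 0 → ‖sig ((cL S θ (A3 d) Zl (x : V ⧸ Zl) : ℝ) : ℂ)‖ = 1) :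
    HasETF d := by
  have hθ0 : θ ≠ 0 := (lt_trans one_pos hθ1).ne'
  have h1 : θ + θ⁻¹ = (d : ℝ) - 1 := by
    field_simp
    linear_combination hθ
  refine hasETF_of_NG hd4 ng (fun x => cL_q0 hd4 hS hθ1 hθ x.2) (fun x => hz _ x.2) ?_ sig hsig
  have h2 : (θ ^ 3) + (θ ^ 3)⁻¹ = (θ + θ⁻¹) ^ 3 - 3 * (θ + θ⁻¹) := by
    field_simp
    ring
  rw [h2, h1]

end Pool.Agent.Lib.MP_d0f9e0_co.AV12
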