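import Pool.Agent.Lib.MP_d0f9e0_co.GH.Defs

/-!
# The matrix `A0` of trace `d - 1`, its cube, and the fixed points of the cube on `ℚ² / ℤ²`
-/

set_option autoImplicit false

open scoped BigOperators

namespace Pool.Agent.Lib.MP_d0f9e0_co.AV12

open Pool.MP_d0f9e0_co.SH Pool.MP_d0f9e0_co.GH

/-- multiplication by the unit of trace `d - 1` -/
def A0 (d : ℕ) : V ≃+ V where
  toFun v := (-v.2, v.1 + ((d : ℚ) - 1) * v.2)
  invFun v := (v.2 + ((d : ℚ) - 1) * v.1, -v.1)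
  left_inv v := by ext <;> simp
  right_inv v := by ext <;> simp
  map_add' v w := by ext <;> simp <;> ring

theorem A0_apply (d : ℕ) (v : V) : A0 d v = (-v.2, v.1 + ((d : ℚ) - 1) * v.2) := rfl

theorem A0_symm_apply (d : ℕ) (v : V) : (A0 d).symm v = (v.2 + ((d : ℚ) - 1) * v.1, -v.1) := rfl

/-- the cube -/
def A3 (d : ℕ) : V ≃+ V := pw (A0 d) 3

theorem A3_apply' (d : ℕ) (v : V) : A3 d v = A0 d (A0 d (A0 d v)) := rfl

theorem A3_apply (d : ℕ) (v : V) :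
    A3 d v = (-((d : ℚ) - 1) * v.1 - (((d : ℚ) - 1) ^ 2 - 1) * v.2,
      (((d : ℚ) - 1) ^ 2 - 1) * v.1 + (((d : ℚ) - 1) ^ 3 - 2 * ((d : ℚ) - 1)) * v.2) := by
  rw [A3_apply']
  simp only [A0_apply]
  ext <;> simp <;> ring

theorem A3_comm (d : ℕ) (v : V) : A3 d (A0 d v) = A0 d (A3 d v) := rfl

theorem mem_Zl {p : V} : p ∈ Zl ↔ ∃ i j : ℤ, p = ((i : ℚ), (j : ℚ)) := by
  constructor
  · intro h
    refine AddSubgroup.closure_induction (p := fun p _ => ∃ i j : ℤ, p = ((i : ℚ), (j : ℚ)))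
      ?_ ?_ ?_ ?_ h
    · intro x hx
      rcases hx with rfl | hx
      · exact ⟨1, 0, by simp⟩
      · rw [Set.mem_singleton_iff] at hx
        subst hx
        exact ⟨0, 1, by simp⟩
    · exact ⟨0, 0, by ext <;> simp⟩
    · rintro x y _ _ ⟨i, j, rfl⟩ ⟨i', j', rfl⟩
      exact ⟨i + i', j + j', by ext <;> simp⟩
    · rintro x _ ⟨i, j, rfl⟩
      exact ⟨-i, -j, by ext <;> simp⟩
  · rintro ⟨i, j, rfl⟩
    have h1 : (((i : ℚ), (j : ℚ)) : V) = i • ((1 : ℚ), (0 : ℚ)) + j • ((0 : ℚ), (1 : ℚ)) := by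
      ext <;> simp
    rw [h1]
    refine add_mem (zsmul_mem (AddSubgroup.subset_closure ?_) _)
      (zsmul_mem (AddSubgroup.subset_closure ?_) _)
    · simp
    · simp

theorem A0_mem {d : ℕ} {p : V} (h : p ∈ Zl) : A0 d p ∈ Zl := by
  obtain ⟨i, j, rfl⟩ := mem_Zl.1 h
  exact mem_Zl.2 ⟨-j, i + ((d : ℤ) - 1) * j, by rw [A0_apply]; push_cast; rfl⟩

theorem A0_symm_mem {d : ℕ} {p : V} (h : p ∈ Zl) : (A0 d).symm p ∈ Zl := by
  obtain ⟨i, j, rfl⟩ := mem_Zl.1 h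
  exact mem_Zl.2 ⟨j + ((d : ℤ) - 1) * i, -i, by rw [A0_symm_apply]; push_cast; rfl⟩

theorem A0_map (d : ℕ) : Zl.map (A0 d).toAddMonoidHom = Zl := by
  ext p
  constructor
  · rintro ⟨q, hq, rfl⟩
    exact A0_mem hq
  · intro h
    exact ⟨(A0 d).symm p, A0_symm_mem h, (A0 d).apply_symm_apply p⟩

theorem A3_mem {d : ℕ} {p : V} (h : p ∈ Zl) : A3 d p ∈ Zl := by
  rw [A3_apply']
  exact A0_mem (A0_mem (A0_mem h))

theorem det_A0 (d : ℕ) (p q : V) : det (A0 d p) (A0 d q) = det p q := by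
  simp only [A0_apply, det]
  ring

theorem det_A3 (d : ℕ) (p q : V) : det (A3 d p) (A3 d q) = det p q := by
  rw [A3_apply', A3_apply', det_A0, det_A0, det_A0]

theorem det_int {p q : V} (hp : p ∈ Zl) (hq : q ∈ Zl) : ∃ n : ℤ, det p q = n := by
  obtain ⟨i, j, rfl⟩ := mem_Zl.1 hp
  obtain ⟨i', j', rfl⟩ := mem_Zl.1 hq
  exact ⟨i * j' - j * i', by simp only [det]; push_cast; ring⟩

/-- `A0` on `ℚ²/ℤ²`. -/
noncomputable def q0 (d : ℕ) : V ⧸ Zl ≃+ V ⧸ Zl := QuotientAddGroup.congr Zl Zl (A0 d) (A0_map d)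

theorem q0_mk (d : ℕ) (p : V) :
    q0 d (QuotientAddGroup.mk p : V ⧸ Zl) = QuotientAddGroup.mk (A0 d p) := rfl

theorem q0_symm_mk (d : ℕ) (p : V) :
    (q0 d).symm (QuotientAddGroup.mk p : V ⧸ Zl) = QuotientAddGroup.mk ((A0 d).symm p) := rfl

theorem mem_Fx {A : V ≃+ V} {L : AddSubgroup V} {x : V ⧸ L} :
    x ∈ Fx A L ↔ ∃ p, A p - p ∈ L ∧ (QuotientAddGroup.mk p : V ⧸ L) = x := by
  unfold Fx
  rw [AddSubgroup.mem_map]
  constructor
  · rintro ⟨p, hp, rfl⟩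
    exact ⟨p, hp, rfl⟩
  · rintro ⟨p, hp, rfl⟩
    exact ⟨p, hp, rfl⟩

theorem mk_mem_Fx {d : ℕ} {p : V} :
    (QuotientAddGroup.mk p : V ⧸ Zl) ∈ Fx (A3 d) Zl ↔ A3 d p - p ∈ Zl := by
  rw [mem_Fx]
  constructor
  · rintro ⟨q, hq, h⟩
    rw [QuotientAddGroup.eq] at h
    have h1 : A3 d p - p = (A3 d q - q) + (A3 d (-q + p) - (-q + p)) := by
      rw [map_add, map_neg]; abel
    rw [h1]
    exact add_mem hq (sub_mem (A3_mem h) h)
  · intro h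
    exact ⟨p, h, rfl⟩

theorem q0_mem {d : ℕ} {x : V ⧸ Zl} (h : x ∈ Fx (A3 d) Zl) : q0 d x ∈ Fx (A3 d) Zl := by
  obtain ⟨p, hp, rfl⟩ := mem_Fx.1 h
  rw [q0_mk, mk_mem_Fx, A3_comm, ← map_sub]
  exact A0_mem hp

theorem q0_symm_mem {d : ℕ} {x : V ⧸ Zl} (h : x ∈ Fx (A3 d) Zl) :
    (q0 d).symm x ∈ Fx (A3 d) Zl := by
  obtain ⟨p, hp, rfl⟩ := mem_Fx.1 h
  rw [q0_symm_mk, mk_mem_Fx]
  have h1 : A3 d ((A0 d).symm p) = (A0 d).symm (A3 d p) := by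
    apply (A0 d).injective
    rw [← A3_comm, AddEquiv.apply_symm_apply, AddEquiv.apply_symm_apply]
  rw [h1, ← map_sub]
  exact A0_symm_mem hp

/-- `A0` on the group of fixed points of `A0 ^ 3`. -/
noncomputable def LG (d : ℕ) : Fx (A3 d) Zl ≃+ Fx (A3 d) Zl where
  toFun x := ⟨q0 d x.1, q0_mem x.2⟩
  invFun x := ⟨(q0 d).symm x.1, q0_symm_mem x.2⟩
  left_inv x := Subtype.ext ((q0 d).symm_apply_apply x.1)
  right_inv x := Subtype.ext ((q0 d).apply_symm_apply x.1)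
  map_add' x y := Subtype.ext (map_add (q0 d) x.1 y.1)

theorem LG_coe (d : ℕ) (x : Fx (A3 d) Zl) : ((LG d x : Fx (A3 d) Zl) : V ⧸ Zl) = q0 d (x : V ⧸ Zl) := rfl

/-- a fixed point has a lift -/
theorem exists_lift {d : ℕ} (x : Fx (A3 d) Zl) :
    ∃ p : V, A3 d p - p ∈ Zl ∧ (QuotientAddGroup.mk p : V ⧸ Zl) = x := mem_Fx.1 x.2

/-- element of the group of fixed points -/
def mkG (d : ℕ) (p : V) (h : A3 d p - p ∈ Zl) : Fx (A3 d) Zl := ⟨QuotientAddGroup.mk p, mk_mem_Fx.2 h⟩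

theorem mkG_eq {d : ℕ} {p q : V} (hp : A3 d p - p ∈ Zl) (hq : A3 d q - q ∈ Zl) :
    mkG d p hp = mkG d q hq ↔ q - p ∈ Zl := by
  unfold mkG
  rw [Subtype.mk.injEq, QuotientAddGroup.eq]
  rw [show -p + q = q - p by abel]

theorem mkG_zero {d : ℕ} {p : V} (hp : A3 d p - p ∈ Zl) : mkG d p hp = 0 ↔ p ∈ Zl := by
  unfold mkG
  rw [← Subtype.coe_inj]
  exact QuotientAddGroup.eq_zero_iff p

theorem LG_mkG {d : ℕ} {p : V} (hp : A3 d p - p ∈ Zl) :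
    LG d (mkG d p hp) = mkG d (A0 d p) (by rw [A3_comm, ← map_sub]; exact A0_mem hp) := rfl

theorem LG_fix {d : ℕ} {p : V} (hp : A3 d p - p ∈ Zl) :
    LG d (mkG d p hp) = mkG d p hp ↔ A0 d p - p ∈ Zl := by
  rw [LG_mkG, mkG_eq, ← neg_mem_iff, neg_sub]

theorem exists_mkG {d : ℕ} (x : Fx (A3 d) Zl) :
    ∃ (p : V) (h : A3 d p - p ∈ Zl), x = mkG d p h := by
  obtain ⟨p, hp, h⟩ := exists_lift x
  exact ⟨p, hp, Subtype.ext h.symm⟩

/-! ### The pairing -/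

theorem ex_add (x y : ℝ) : ex (x + y) = ex x * ex y := by
  unfold ex
  rw [← Complex.exp_add]
  congr 1
  push_cast
  ring

theorem ex_int (n : ℤ) : ex (n : ℝ) = 1 := by
  unfold ex
  rw [Complex.exp_eq_one_iff]
  exact ⟨n, by push_cast; ring⟩

theorem ex_congr {x y : ℚ} (h : ∃ n : ℤ, x - y = n) : ex ((x : ℚ) : ℝ) = ex ((y : ℚ) : ℝ) := by
  obtain ⟨n, hn⟩ := h
  have : ((x : ℚ) : ℝ) = ((y : ℚ) : ℝ) + ((n : ℤ) : ℝ) := by
    have h1 : x = y + n := by linarith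
    rw [h1]
    push_cast
    rfl
  rw [this, ex_add, ex_int, mul_one]

theorem psi_mkG {d : ℕ} {p q : V} (hp : A3 d p - p ∈ Zl) (hq : A3 d q - q ∈ Zl) :
    psi (A3 d) Zl 1 (mkG d p hp : V ⧸ Zl) (mkG d q hq : V ⧸ Zl)
      = ex ((det (A3 d p - p) q : ℚ) : ℝ) := by
  unfold psi
  rw [div_one]
  set p' := Quotient.out (mkG d p hp : V ⧸ Zl) with hp'
  set q' := Quotient.out (mkG d q hq : V ⧸ Zl) with hq'
  have h1 : (QuotientAddGroup.mk p' : V ⧸ Zl) = QuotientAddGroup.mk p :=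
    QuotientAddGroup.out_eq' _
  have h2 : (QuotientAddGroup.mk q' : V ⧸ Zl) = QuotientAddGroup.mk q :=
    QuotientAddGroup.out_eq' _
  rw [QuotientAddGroup.eq] at h1 h2
  apply ex_congr
  -- p = p' + l, q = q' + m
  have e1 : det (A3 d p' - p') q' - det (A3 d p - p) q
      = -det (A3 d p - p) (-q' + q) - det (A3 d (-p' + p)) (q' - A3 d q') := by
    have h3 : det (-p' + p) q' = det (A3 d (-p' + p)) (A3 d q') := (det_A3 d _ _).symm
    rw [sub_eq_add_neg q' (A3 d q'), det_add_right (A3 d (-p' + p)) q' (-(A3 d q')),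
      det_neg_right (A3 d (-p' + p)) (A3 d q'), ← h3]
    rw [map_add, map_neg]
    simp only [det, Prod.fst_sub, Prod.snd_sub, Prod.fst_add, Prod.snd_add, Prod.fst_neg,
      Prod.snd_neg]
    ring
  have hq3 : q' - A3 d q' ∈ Zl := by
    have h4 : q' - A3 d q' = -((A3 d q - q) - (A3 d (-q' + q) - (-q' + q))) := by
      rw [map_add, map_neg]; abel
    rw [h4]
    exact neg_mem (sub_mem hq (sub_mem (A3_mem h2) h2))
  obtain ⟨n1, hn1⟩ := det_int hp h2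
  obtain ⟨n2, hn2⟩ := det_int (A3_mem (d := d) h1) hq3
  exact ⟨-n1 - n2, by rw [e1, hn1, hn2]; push_cast; ring⟩

end Pool.Agent.Lib.MP_d0f9e0_co.AV12
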