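import Pool.Agent.Lib.MP_d0f9e0_co.AV12.Grp

/-!
# The `d`-torsion inside the fixed points of `A0 ^ 3`
-/

set_option autoImplicit false

open scoped BigOperators

namespace Pool.Agent.Lib.MP_d0f9e0_co.AV12

open Pool.MP_d0f9e0_co.SH Pool.MP_d0f9e0_co.GH

variable {d : ℕ} [NeZero d]

/-- the vector `(j/d, i/d)` -/
def kv (d : ℕ) (i j : ℤ) : V := ((j : ℚ) / d, (i : ℚ) / d)

theorem dne : (d : ℚ) ≠ 0 := by exact_mod_cast NeZero.ne d

theorem A3_kv (i j : ℤ) : A3 d (kv d i j) - kv d i j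
    = (((-j - ((d : ℤ) - 2) * i : ℤ) : ℚ),
      ((((d : ℤ) - 2) * j + (((d : ℤ) - 1) ^ 2 - ((d : ℤ) - 1) - 1) * i : ℤ) : ℚ)) := by
  have := dne (d := d)
  rw [A3_apply]
  unfold kv
  ext
  · simp only [Prod.fst_sub]
    push_cast
    field_simp
    ring
  · simp only [Prod.snd_sub]
    push_cast
    field_simp
    ring

theorem kv_mem (i j : ℤ) : A3 d (kv d i j) - kv d i j ∈ Zl := by
  rw [A3_kv]
  exact mem_Zl.2 ⟨_, _, rfl⟩

theorem kv_add (i j i' j' : ℤ) : kv d (i + i') (j + j') = kv d i j + kv d i' j' := by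
  unfold kv
  ext <;> simp <;> ring

/-- the point of the group -/
def kG (d : ℕ) [NeZero d] (i j : ℤ) : Fx (A3 d) Zl := mkG d (kv d i j) (kv_mem i j)

theorem mkG_congr {p q : V} (h : p = q) (hp : A3 d p - p ∈ Zl) (hq : A3 d q - q ∈ Zl) :
    mkG d p hp = mkG d q hq := by
  subst h
  rfl

theorem mkG_add {p q : V} (hp : A3 d p - p ∈ Zl) (hq : A3 d q - q ∈ Zl)
    (hpq : A3 d (p + q) - (p + q) ∈ Zl) :
    mkG d p hp + mkG d q hq = mkG d (p + q) hpq := rfl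

theorem kG_add (i j i' j' : ℤ) : kG d (i + i') (j + j') = kG d i j + kG d i' j' := by
  unfold kG
  rw [mkG_add _ _ (by rw [← kv_add]; exact kv_mem _ _)]
  exact mkG_congr (kv_add _ _ _ _) _ _

theorem kG_eq_zero (i j : ℤ) : kG d i j = 0 ↔ (d : ℤ) ∣ i ∧ (d : ℤ) ∣ j := by
  have hd := dne (d := d)
  unfold kG
  rw [mkG_zero, mem_Zl]
  constructor
  · rintro ⟨m, n, h⟩
    unfold kv at h
    rw [Prod.mk.injEq] at h
    obtain ⟨h1, h2⟩ := h
    rw [div_eq_iff hd] at h1 h2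
    refine ⟨⟨n, ?_⟩, ⟨m, ?_⟩⟩
    · have : (i : ℚ) = ((d : ℤ) * n : ℤ) := by rw [h2]; push_cast; ring
      exact_mod_cast this
    · have : (j : ℚ) = ((d : ℤ) * m : ℤ) := by rw [h1]; push_cast; ring
      exact_mod_cast this
  · rintro ⟨⟨n, rfl⟩, ⟨m, rfl⟩⟩
    refine ⟨m, n, ?_⟩
    unfold kv
    push_cast
    rw [mul_div_cancel_left₀ _ hd, mul_div_cancel_left₀ _ hd]

/-- first coordinate -/
def f1 (d : ℕ) [NeZero d] : ℤ →+ Fx (A3 d) Zl where
  toFun i := kG d i 0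
  map_zero' := by rw [kG_eq_zero]; simp
  map_add' i i' := by rw [← kG_add, add_zero]

/-- second coordinate -/
def f2 (d : ℕ) [NeZero d] : ℤ →+ Fx (A3 d) Zl where
  toFun j := kG d 0 j
  map_zero' := by rw [kG_eq_zero]; simp
  map_add' j j' := by rw [← kG_add, add_zero]

/-- the parametrisation of the `d`-torsion -/
noncomputable def io (d : ℕ) [NeZero d] : ZMod d × ZMod d →+ Fx (A3 d) Zl :=
  (ZMod.lift d ⟨f1 d, by
      show kG d (d : ℤ) 0 = 0
      rw [kG_eq_zero]; simp⟩).coprod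
    (ZMod.lift d ⟨f2 d, by
      show kG d 0 (d : ℤ) = 0
      rw [kG_eq_zero]; simp⟩)

theorem io_coe (i j : ℤ) : io d ((i : ZMod d), (j : ZMod d)) = kG d i j := by
  unfold io
  rw [AddMonoidHom.coprod_apply, ZMod.lift_coe, ZMod.lift_coe]
  show kG d i 0 + kG d 0 j = kG d i j
  rw [← kG_add, add_zero, zero_add]

theorem exists_int (k : ZMod d × ZMod d) : ∃ i j : ℤ, k = ((i : ZMod d), (j : ZMod d)) := by
  obtain ⟨i, hi⟩ := ZMod.intCast_surjective k.1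
  obtain ⟨j, hj⟩ := ZMod.intCast_surjective k.2
  exact ⟨i, j, by rw [hi, hj]⟩

theorem io_inj : Function.Injective (io d) := by
  rw [injective_iff_map_eq_zero]
  intro k hk
  obtain ⟨i, j, rfl⟩ := exists_int k
  rw [io_coe, kG_eq_zero] at hk
  rw [Prod.mk_eq_zero, ZMod.intCast_zmod_eq_zero_iff_dvd, ZMod.intCast_zmod_eq_zero_iff_dvd]
  exact hk

theorem ex_eq_std (n : ℤ) :
    ex ((((n : ℚ) / d : ℚ)) : ℝ) = ZMod.stdAddChar (N := d) (n : ZMod d) := by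
  rw [ZMod.stdAddChar_coe]
  unfold ex
  congr 1
  push_cast
  ring

theorem LG_io (i j : ℤ) : LG d (kG d i j) = kG d (j + ((d : ℤ) - 1) * i) (-i) := by
  have hd := dne (d := d)
  unfold kG
  rw [LG_mkG]
  apply mkG_congr
  rw [A0_apply]
  unfold kv
  ext
  · push_cast; ring
  · push_cast; field_simp

theorem LG_io' (k : ZMod d × ZMod d) : LG d (io d k) = io d (k.2 - k.1, -k.1) := by
  obtain ⟨i, j, rfl⟩ := exists_int k
  have h1 : (((j : ZMod d) - (i : ZMod d), -(i : ZMod d)) : ZMod d × ZMod d)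
      = (((j + ((d : ℤ) - 1) * i : ℤ) : ZMod d), ((-i : ℤ) : ZMod d)) := by
    ext
    · push_cast
      simp
      ring
    · push_cast
      rfl
  rw [h1, io_coe, io_coe, LG_io]

/-- the pairing with a point of the `d`-torsion -/
theorem psi_io (k l : ZMod d × ZMod d) (y : Fx (A3 d) Zl) (hy : LG d y = y + io d l) :
    psi (A3 d) Zl 1 (io d k : V ⧸ Zl) (y : V ⧸ Zl)
      = ZMod.stdAddChar (N := d) (-(k.1 * l.1) - k.2 * l.2 + k.2 * l.1) := by
  have hd := dne (d := d)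
  obtain ⟨i, j, rfl⟩ := exists_int k
  obtain ⟨i', j', rfl⟩ := exists_int l
  obtain ⟨q, hq, rfl⟩ := exists_mkG y
  rw [io_coe] at hy ⊢
  unfold kG at hy ⊢
  rw [psi_mkG, A3_kv]
  rw [LG_mkG, mkG_add _ _ (by
    have h1 := add_mem hq (kv_mem (d := d) i' j')
    have h2 : A3 d (q + kv d i' j') - (q + kv d i' j')
        = (A3 d q - q) + (A3 d (kv d i' j') - kv d i' j') := by rw [map_add]; abel
    rw [h2]
    exact h1), eq_comm, mkG_eq, mem_Zl] at hy
  obtain ⟨m1, m2, hm⟩ := hy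
  rw [A0_apply] at hm
  unfold kv at hm
  have e1 : -q.2 - (q.1 + (j' : ℚ) / d) = m1 := congrArg Prod.fst hm
  have e2 : q.1 + ((d : ℚ) - 1) * q.2 - (q.2 + (i' : ℚ) / d) = m2 := congrArg Prod.snd hm
  have h3 : (-((i : ZMod d) * (i' : ZMod d)) - (j : ZMod d) * (j' : ZMod d)
      + (j : ZMod d) * (i' : ZMod d)) = (((-(i * i') - j * j' + j * i' : ℤ)) : ZMod d) := by
    push_cast
    ring
  show ex _ = ZMod.stdAddChar (N := d) (-((i : ZMod d) * (i' : ZMod d))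
    - (j : ZMod d) * (j' : ZMod d) + (j : ZMod d) * (i' : ZMod d))
  rw [h3, ← ex_eq_std]
  apply ex_congr
  refine ⟨(((d : ℤ) - 1) * j + (d : ℤ) * ((d : ℤ) - 2) * i) * m1 + (j + ((d : ℤ) - 1) * i) * m2
    + j * j' + ((d : ℤ) - 2) * i * j' + i * i', ?_⟩
  simp only [det]
  push_cast
  rw [← e1, ← e2]
  field_simp
  ring

/-- solving `A0 q - q = w` -/
def sol (d : ℕ) (w : V) : V :=
  (-w.1 - (w.1 + w.2) / ((d : ℚ) - 3), (w.1 + w.2) / ((d : ℚ) - 3))

theorem A0_sol (hd4 : 4 ≤ d) (w : V) : A0 d (sol d w) - sol d w = w := by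
  have h3 : (d : ℚ) - 3 ≠ 0 := by
    have : (4 : ℚ) ≤ d := by exact_mod_cast hd4
    linarith
  rw [A0_apply]
  unfold sol
  ext
  · simp only [Prod.fst_sub]; ring
  · simp only [Prod.snd_sub]
    field_simp
    ring

theorem A3_sub (p : V) : A3 d p - p
    = A0 d (A0 d (A0 d p - p)) + A0 d (A0 d p - p) + (A0 d p - p) := by
  rw [A3_apply', map_sub, map_sub]
  abel

theorem surj (hd4 : 4 ≤ d) (l : ZMod d × ZMod d) : ∃ y, LG d y = y + io d l := by
  have hd := dne (d := d)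
  obtain ⟨i', j', rfl⟩ := exists_int l
  have h1 := A0_sol hd4 (kv d i' j')
  have h2 : A3 d (sol d (kv d i' j')) - sol d (kv d i' j') ∈ Zl := by
    rw [A3_sub, h1]
    refine mem_Zl.2 ⟨-i', j' + ((d : ℤ) - 1) * i', ?_⟩
    simp only [A0_apply]
    unfold kv
    ext
    · simp
      field_simp
      ring
    · simp
      field_simp
      ring
  refine ⟨mkG d _ h2, ?_⟩
  rw [io_coe, LG_mkG]
  unfold kG
  rw [mkG_add _ _ (by
    have h1 := add_mem h2 (kv_mem (d := d) i' j')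
    have h3 : A3 d (sol d (kv d i' j') + kv d i' j') - (sol d (kv d i' j') + kv d i' j')
        = (A3 d (sol d (kv d i' j')) - sol d (kv d i' j'))
          + (A3 d (kv d i' j') - kv d i' j') := by rw [map_add]; abel
    rw [h3]
    exact h1)]
  apply mkG_congr
  rw [← sub_eq_iff_eq_add', h1]

theorem ex_eq_one {x : ℝ} (h : ex x = 1) : ∃ n : ℤ, x = n := by
  unfold ex at h
  rw [Complex.exp_eq_one_iff] at h
  obtain ⟨n, hn⟩ := h
  refine ⟨n, ?_⟩
  have h2 : (2 * (Real.pi : ℂ) * Complex.I) ≠ 0 := by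
    simp [Real.pi_ne_zero]
  have h3 : (2 * (Real.pi : ℂ) * Complex.I) * (x : ℂ) = (2 * (Real.pi : ℂ) * Complex.I) * (n : ℂ) := by
    rw [hn]; ring
  have h4 := mul_left_cancel₀ h2 h3
  exact_mod_cast h4

/-- a point orthogonal to the fixed points of `A0` is `d`-torsion -/
theorem mem_range (hd4 : 4 ≤ d) (a : Fx (A3 d) Zl)
    (h : ∀ t : Fx (A3 d) Zl, LG d t = t → psi (A3 d) Zl 1 (a : V ⧸ Zl) (t : V ⧸ Zl) = 1) :
    a ∈ Set.range (io d) := by
  have hd := dne (d := d)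
  have h3 : (d : ℚ) - 3 ≠ 0 := by
    have : (4 : ℚ) ≤ d := by exact_mod_cast hd4
    linarith
  obtain ⟨p, hp, rfl⟩ := exists_mkG a
  have hw : ((0 : ℚ), (1 : ℚ)) ∈ Zl := mem_Zl.2 ⟨0, 1, by simp⟩
  have h1 := A0_sol hd4 ((0 : ℚ), (1 : ℚ))
  have h2 : A3 d (sol d ((0 : ℚ), (1 : ℚ))) - sol d ((0 : ℚ), (1 : ℚ)) ∈ Zl := by
    rw [A3_sub, h1]
    exact add_mem (add_mem (A0_mem (A0_mem hw)) (A0_mem hw)) hw
  have h4 := h (mkG d _ h2) (by rw [LG_fix, h1]; exact hw)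
  rw [psi_mkG] at h4
  obtain ⟨n, hn⟩ := ex_eq_one h4
  have hn' : det (A3 d p - p) (sol d ((0 : ℚ), (1 : ℚ))) = n := by exact_mod_cast hn
  obtain ⟨u1, u2, hu⟩ := mem_Zl.1 hp
  rw [hu] at hn'
  have e0 : ((u1 : ℚ) + u2) / ((d : ℚ) - 3) = n := by
    rw [← hn']
    simp only [det, sol]
    ring
  have e0' : (u1 : ℚ) + u2 = n * ((d : ℚ) - 3) := by
    rw [← e0]
    field_simp
  have e1 : -((d : ℚ) - 1) * p.1 - (((d : ℚ) - 1) ^ 2 - 1) * p.2 - p.1 = u1 := by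
    have := congrArg Prod.fst hu
    rw [A3_apply] at this
    exact this
  have e2 : (((d : ℚ) - 1) ^ 2 - 1) * p.1 + (((d : ℚ) - 1) ^ 3 - 2 * ((d : ℚ) - 1)) * p.2 - p.2
      = u2 := by
    have := congrArg Prod.snd hu
    rw [A3_apply] at this
    exact this
  have ey : (d : ℚ) * p.2 = n + u1 := by
    have h5 : ((d : ℚ) - 3) * ((d : ℚ) * p.2) = ((d : ℚ) - 3) * (n + u1) := by
      linear_combination e2 + ((d : ℚ) - 2) * e1 + e0'
    exact mul_left_cancel₀ h3 h5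
  have ex' : (d : ℚ) * p.1 = -u1 - ((d : ℚ) - 2) * (n + u1) := by
    linear_combination -e1 - ((d : ℚ) - 2) * ey
  refine ⟨(((n + u1 : ℤ) : ZMod d), ((-u1 - ((d : ℤ) - 2) * (n + u1) : ℤ) : ZMod d)), ?_⟩
  rw [io_coe]
  unfold kG
  apply mkG_congr
  unfold kv
  ext
  · show ((-u1 - ((d : ℤ) - 2) * (n + u1) : ℤ) : ℚ) / d = p.1
    rw [div_eq_iff hd]
    push_cast
    linarith
  · show ((n + u1 : ℤ) : ℚ) / d = p.2
    rw [div_eq_iff hd]
    push_cast
    linarith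

end Pool.Agent.Lib.MP_d0f9e0_co.AV12
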