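import Pool.Agent.Lib.MP_d0f9e0_co.FN.Core

/-!
# From a symmetric twisted convolution identity to `FN.Dat`

`F : ZMod d × ZMod d → M` with `F k * F (-k) = e (N k)`, `N k = k1^2 - k1 k2 + k2^2`, and the
twisted convolution identity with the kernel `e (k1 m1 + k2 m2 - k1 m2)`; the coboundary
`tau ^ (-(k1 - k2)^2)` turns it into the data of `FN.Dat`.
-/

set_option autoImplicit false
set_option linter.unusedSectionVars false

open scoped BigOperators

namespace Pool.Agent.Lib.MP_d0f9e0_co.AV12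

open Pool.Agent.Lib.MP_d0f9e0_co.FN

variable {M : Type*} [Field M] {d : ℕ} [NeZero d]

/-- The quadratic gauge factor. -/
def tq (tau : M) (x : ZMod d) : M := tau ^ (x.val ^ 2)

theorem tq_zero (tau : M) : tq tau (0 : ZMod d) = 1 := by simp [tq]

theorem tau_ne {tau : M} (h : tau ^ (d ^ 2) = 1) : tau ≠ 0 := by
  rintro rfl
  rw [zero_pow (pow_ne_zero 2 (NeZero.ne d))] at h
  exact zero_ne_one h

theorem tq_ne {tau : M} (h : tau ^ (d ^ 2) = 1) (x : ZMod d) : tq tau x ≠ 0 :=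
  pow_ne_zero _ (tau_ne h)

/-- `tau ^ (n^2)` only depends on `n` modulo `d`. -/
theorem tq_cast {e : AddChar (ZMod d) M} {tau : M} (h2 : tau ^ 2 = e 1) (h : tau ^ (d ^ 2) = 1)
    (n : ℕ) : tq tau (n : ZMod d) = tau ^ (n ^ 2) := by
  have hd : tau ^ (2 * d) = 1 := by
    rw [pow_mul, h2, ← AddChar.map_nsmul_eq_pow]
    simp
  unfold tq
  rw [ZMod.val_natCast]
  conv_rhs => rw [← Nat.mod_add_div n d]
  have h3 : (n % d + d * (n / d)) ^ 2
      = (n % d) ^ 2 + (2 * d) * ((n % d) * (n / d)) + d ^ 2 * (n / d) ^ 2 := by ring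
  rw [h3, pow_add, pow_add, pow_mul tau (2 * d), hd, one_pow, mul_one, pow_mul tau (d ^ 2), h,
    one_pow, mul_one]

theorem tq_add {e : AddChar (ZMod d) M} {tau : M} (h2 : tau ^ 2 = e 1) (h : tau ^ (d ^ 2) = 1)
    (x y : ZMod d) : tq tau (x + y) = tq tau x * tq tau y * e (x * y) := by
  have hx : x = ((x.val : ℕ) : ZMod d) := (ZMod.natCast_zmod_val x).symm
  have hy : y = ((y.val : ℕ) : ZMod d) := (ZMod.natCast_zmod_val y).symm
  have h4 : e (x * y) = tau ^ (2 * (x.val * y.val)) := by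
    conv_lhs => rw [hx, hy]
    rw [pow_mul, h2, ← AddChar.map_nsmul_eq_pow]
    congr 1
    simp
  have h5 : tq tau (x + y) = tau ^ ((x.val + y.val) ^ 2) := by
    rw [← tq_cast h2 h (x.val + y.val)]
    congr 1
    push_cast
    rw [← hx, ← hy]
  rw [h5, h4]
  unfold tq
  rw [← pow_add, ← pow_add]
  congr 1
  ring

theorem tq_neg {e : AddChar (ZMod d) M} {tau : M} (h2 : tau ^ 2 = e 1) (h : tau ^ (d ^ 2) = 1)
    (x : ZMod d) : tq tau (-x) * tq tau x = e (x * x) := by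
  have h1 := tq_add h2 h x (-x)
  rw [add_neg_cancel, tq_zero] at h1
  have h3 : e (x * -x) * e (x * x) = 1 := by
    rw [← AddChar.map_add_eq_mul]
    have : x * -x + x * x = 0 := by ring
    rw [this, AddChar.map_zero_eq_one]
  linear_combination (-(e (x * x))) * h1 - (tq tau x * tq tau (-x)) * h3

/-- Coefficients with the gauge factor. -/
noncomputable def aC (tau s : M) (F : ZMod d × ZMod d → M) (k : ZMod d × ZMod d) : M :=
  if k = 0 then 1 else -(s⁻¹) * F k * (tq tau (k.1 - k.2))⁻¹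

theorem aC_zero (tau s : M) (F : ZMod d × ZMod d → M) : aC tau s F 0 = 1 := by simp [aC]

theorem aC_ne (tau s : M) (F : ZMod d × ZMod d → M) {k : ZMod d × ZMod d} (hk : k ≠ 0) :
    aC tau s F k = -(s⁻¹) * F k * (tq tau (k.1 - k.2))⁻¹ := by simp [aC, hk]

/-- product of two coefficients -/
theorem aC_mul {e : AddChar (ZMod d) M} {tau : M} (h2 : tau ^ 2 = e 1) (h : tau ^ (d ^ 2) = 1)
    {s : M} (F : ZMod d × ZMod d → M) {k m : ZMod d × ZMod d} (hk : k ≠ 0) (hm : m ≠ 0) :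
    aC tau s F k * aC tau s F m * e (k.2 * m.1)
      = s⁻¹ * s⁻¹ * (tq tau ((k + m).1 - (k + m).2))⁻¹
        * (F k * F m * e (k.1 * m.1 + k.2 * m.2 - k.1 * m.2)) := by
  rw [aC_ne _ _ _ hk, aC_ne _ _ _ hm]
  have h3 : tq tau ((k + m).1 - (k + m).2)
      = tq tau (k.1 - k.2) * tq tau (m.1 - m.2) * e ((k.1 - k.2) * (m.1 - m.2)) := by
    rw [← tq_add h2 h]
    congr 1
    simp only [Prod.fst_add, Prod.snd_add]
    ring
  have h4 : e (k.1 * m.1 + k.2 * m.2 - k.1 * m.2)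
      = e (k.2 * m.1) * e ((k.1 - k.2) * (m.1 - m.2)) := by
    rw [← AddChar.map_add_eq_mul]
    congr 1
    ring
  have hA : e ((k.1 - k.2) * (m.1 - m.2)) ≠ 0 := by
    intro h0
    have h5 : e ((k.1 - k.2) * (m.1 - m.2)) * e (-((k.1 - k.2) * (m.1 - m.2))) = 1 := by
      rw [← AddChar.map_add_eq_mul, add_neg_cancel, AddChar.map_zero_eq_one]
    rw [h0, zero_mul] at h5
    exact zero_ne_one h5
  have hB := tq_ne h (k.1 - k.2)
  have hC := tq_ne h (m.1 - m.2)
  rw [h3, h4]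
  field_simp

theorem aC_inv {e : AddChar (ZMod d) M} {tau : M} (h2 : tau ^ 2 = e 1) (h : tau ^ (d ^ 2) = 1)
    {s : M} (hs : s ^ 2 = (d : M) + 1) (hs0 : s ≠ 0) (F : ZMod d × ZMod d → M)
    (hinv : ∀ k, k ≠ 0 → F k * F (-k) = e (k.1 * k.1 - k.1 * k.2 + k.2 * k.2))
    (k : ZMod d × ZMod d) (hk : k ≠ 0) :
    aC tau s F k * aC tau s F (-k) * e (k.2 * (-k).1) * ((d : M) + 1) = 1 := by
  have hk' : -k ≠ 0 := by simpa using hk
  have h6 : F k * F (-k) * e (k.1 * (-k).1 + k.2 * (-k).2 - k.1 * (-k).2) = 1 := by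
    rw [hinv k hk, ← AddChar.map_add_eq_mul]
    have h5 : k.1 * k.1 - k.1 * k.2 + k.2 * k.2
        + (k.1 * (-k).1 + k.2 * (-k).2 - k.1 * (-k).2) = 0 := by
      simp only [Prod.fst_neg, Prod.snd_neg]; ring
    rw [h5, AddChar.map_zero_eq_one]
  rw [aC_mul h2 h F hk hk', h6, add_neg_cancel]
  simp only [Prod.fst_zero, Prod.snd_zero, sub_zero, tq_zero, inv_one, mul_one]
  rw [← hs]
  field_simp

theorem aC_conv {e : AddChar (ZMod d) M} {tau : M} (h2 : tau ^ 2 = e 1) (h : tau ^ (d ^ 2) = 1)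
    {s : M} (hs : s ^ 2 = (d : M) + 1) (hs0 : s ≠ 0) (F : ZMod d × ZMod d → M)
    (hinv : ∀ k, k ≠ 0 → F k * F (-k) = e (k.1 * k.1 - k.1 * k.2 + k.2 * k.2))
    (hconv : ∀ l : ZMod d × ZMod d, l ≠ 0 →
      ∑ k ∈ (Finset.univ.erase 0).erase l,
        F k * F (l - k) * e (k.1 * (l - k).1 + k.2 * (l - k).2 - k.1 * (l - k).2)
          = -(((d : M) - 2) * s) * F l) (l : ZMod d × ZMod d) :
    ∑ k, aC tau s F k * aC tau s F (l - k) * e (k.2 * (l.1 - k.1)) = (d : M) * aC tau s F l := by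
  by_cases hl : l = 0
  · subst hl
    have hs1 : ((d : M) + 1) ≠ 0 := by rw [← hs]; exact pow_ne_zero 2 hs0
    rw [← Finset.add_sum_erase Finset.univ _ (Finset.mem_univ (0 : ZMod d × ZMod d))]
    have h3 : ∀ k ∈ (Finset.univ : Finset (ZMod d × ZMod d)).erase 0,
        aC tau s F k * aC tau s F (0 - k) * e (k.2 * ((0 : ZMod d × ZMod d).1 - k.1))
          = ((d : M) + 1)⁻¹ := by
      intro k hk
      have hk0 : k ≠ 0 := Finset.ne_of_mem_erase hk
      have h4 := aC_inv h2 h hs hs0 F hinv k hk0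
      rw [zero_sub, Prod.fst_zero, zero_sub]
      exact eq_inv_of_mul_eq_one_left h4
    rw [Finset.sum_congr rfl h3, Finset.sum_const, Finset.card_erase_of_mem (Finset.mem_univ _),
      Finset.card_univ, Fintype.card_prod, ZMod.card]
    simp only [sub_zero, aC_zero, Prod.fst_zero, Prod.snd_zero, mul_zero, mul_one,
      AddChar.map_zero_eq_one, nsmul_eq_mul]
    have hd : 1 ≤ d * d := Nat.mul_pos (NeZero.pos d) (NeZero.pos d)
    rw [Nat.cast_sub hd]
    push_cast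
    field_simp
    ring
  · have h0l : (0 : ZMod d × ZMod d) ≠ l := fun h' => hl h'.symm
    rw [← Finset.add_sum_erase Finset.univ _ (Finset.mem_univ (0 : ZMod d × ZMod d)),
      ← Finset.add_sum_erase (Finset.univ.erase 0) _ (Finset.mem_erase.2 ⟨hl, Finset.mem_univ l⟩)]
    have h3 : ∀ k ∈ ((Finset.univ : Finset (ZMod d × ZMod d)).erase 0).erase l,
        aC tau s F k * aC tau s F (l - k) * e (k.2 * (l.1 - k.1))
          = s⁻¹ * s⁻¹ * (tq tau (l.1 - l.2))⁻¹
            * (F k * F (l - k) * e (k.1 * (l - k).1 + k.2 * (l - k).2 - k.1 * (l - k).2)) := by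
      intro k hk
      have hkl : k ≠ l := Finset.ne_of_mem_erase hk
      have hk0 : k ≠ 0 := Finset.ne_of_mem_erase (Finset.mem_of_mem_erase hk)
      have hm : l - k ≠ 0 := fun h' => hkl (sub_eq_zero.1 h').symm
      have h4 := aC_mul h2 h (s := s) F hk0 hm
      rw [add_sub_cancel] at h4
      rw [← h4, Prod.fst_sub]
    rw [Finset.sum_congr rfl h3, ← Finset.mul_sum, hconv l hl]
    simp only [sub_zero, aC_zero, Prod.fst_zero, Prod.snd_zero, zero_mul, mul_one, one_mul,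
      AddChar.map_zero_eq_one, sub_self, mul_zero]
    rw [aC_ne _ _ _ hl]
    have ht := tq_ne h (l.1 - l.2)
    field_simp
    ring

/-- The data. -/
noncomputable def mkDat (e : AddChar (ZMod d) M) (he : e.IsPrimitive) (tau s : M)
    (h2 : tau ^ 2 = e 1) (h : tau ^ (d ^ 2) = 1) (hs : s ^ 2 = (d : M) + 1) (hs0 : s ≠ 0)
    (F : ZMod d × ZMod d → M)
    (hinv : ∀ k, k ≠ 0 → F k * F (-k) = e (k.1 * k.1 - k.1 * k.2 + k.2 * k.2))
    (hconv : ∀ l : ZMod d × ZMod d, l ≠ 0 →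
      ∑ k ∈ (Finset.univ.erase 0).erase l,
        F k * F (l - k) * e (k.1 * (l - k).1 + k.2 * (l - k).2 - k.1 * (l - k).2)
          = -(((d : M) - 2) * s) * F l) : Dat M d where
  e := e
  he := he
  a := aC tau s F
  h0 := aC_zero tau s F
  hinv k hk := by
    have h3 := aC_inv h2 h hs hs0 F hinv k hk
    have h4 : e (k.2 * (-k).1) * e (k.1 * k.2) = 1 := by
      rw [← AddChar.map_add_eq_mul]
      have h5 : k.2 * (-k).1 + k.1 * k.2 = 0 := by
        simp only [Prod.fst_neg]; ring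
      rw [h5, AddChar.map_zero_eq_one]
    linear_combination e (k.1 * k.2) * h3
      - aC tau s F k * aC tau s F (-k) * ((d : M) + 1) * h4
  hconv := aC_conv h2 h hs hs0 F hinv hconv

end Pool.Agent.Lib.MP_d0f9e0_co.AV12
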